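import Pool.Agent.Ins.Final

/-!
# MP_42db45_gt: knots made of a four-strand braid and `n` further crossings

`Diagram n` is an oriented diagram with `n` crossings and four gates (four points lying side by side
on parallel arcs), `D.insert w` the diagram obtained by inserting the braid word `w` at the gates,
`normalized` its normalized bracket `f`.  For every `n` and every Laurent polynomial `P` there is a
bound `C` such that the exponent sum of `w` is less than `C` in absolute value whenever `D.insert w`
is a knot diagram with `f = P`.
-/

namespace Pool.Agent.Ins.Retired.BraidInsertionKnots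

open LaurentPolynomial Pool.Agent.Ins

theorem result (n : ℕ) (P : ℤ[T;T⁻¹]) : ∃ C : ℕ, ∀ (D : Diagram n) (w : List (Fin 3 × ℤˣ)),
    (D.insert w).IsKnot → (D.insert w).normalized = P → |expSum w| < C := by
  obtain ⟨C, hC⟩ := Final_bound (Final_main n P)
  exact ⟨C, fun D w hK hP => hC _ ⟨D, w, hK, hP, rfl⟩⟩

end Pool.Agent.Ins.Retired.BraidInsertionKnots
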